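import Pool.Agent.Q264.NtCover
set_option autoImplicit false
set_option linter.unusedSectionVars false
open Finset

/-! The non-degenerate version of `f(r)` (all sides of size at least two) is linear in `r`
(MP_2c613a_co). -/

namespace Pool.Agent.Results.MP_2c613a_co.NondegenerateLinear

open Pool.Agent.Q264.NtCover

/-- `g(r)`: the supremum of `τ*(H)` over all intersecting `r`-partite hypergraphs `H` that have a
non-trivial vertex cover and all of whose sides have at least two vertices. -/
noncomputable def g (r : ℕ) : ℕ∞ :=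
  sSup {t : ℕ∞ | ∃ (V : Type) (_ : Fintype V) (_ : DecidableEq V) (side : V → Fin r)
    (E : Finset (Finset V)), IsPartite side E ∧ IsIntersecting E ∧
      (∀ i, 2 ≤ #(sideSet side i)) ∧ (∃ S, IsNtCover side E S) ∧ t = (tauStar side E : ℕ∞)}

/-- the vertices of the example: `m+1` sides `{0,1}` and one side of complementary pairs -/
abbrev W (m : ℕ) : Type := (Fin (m + 1) × Bool) ⊕ (Fin m → Bool)

/-- the sides of the example -/
def wSide (m : ℕ) : W m → Fin (m + 2)
  | Sum.inl p => p.1.castSucc
  | Sum.inr _ => Fin.last (m + 1)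

/-- the class of a vector up to complementation -/
def cls {m : ℕ} (x : Fin (m + 1) → Bool) : Fin m → Bool := fun j => xor (x 0) (x j.succ)

/-- the edge of a vector -/
def wEdge {m : ℕ} (x : Fin (m + 1) → Bool) : Finset (W m) :=
  insert (Sum.inr (cls x)) (univ.image (fun i => Sum.inl (i, x i)))

/-- the edges of the example -/
def wE (m : ℕ) : Finset (Finset (W m)) := univ.image wEdge

lemma mem_wEdge {m : ℕ} {x : Fin (m + 1) → Bool} {v : W m} :
    v ∈ wEdge x ↔ v = Sum.inr (cls x) ∨ ∃ i, v = Sum.inl (i, x i) := by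
  unfold wEdge
  rw [mem_insert, mem_image]
  constructor
  · rintro (h | ⟨i, _, h⟩)
    · exact Or.inl h
    · exact Or.inr ⟨i, h.symm⟩
  · rintro (h | ⟨i, h⟩)
    · exact Or.inl h
    · exact Or.inr ⟨i, mem_univ _, h.symm⟩

lemma inl_mem {m : ℕ} {x : Fin (m + 1) → Bool} {i : Fin (m + 1)} {b : Bool} :
    (Sum.inl (i, b) : W m) ∈ wEdge x ↔ b = x i := by
  rw [mem_wEdge]
  constructor
  · rintro (h | ⟨j, h⟩)
    · exact absurd h (by simp)
    · simp only [Sum.inl.injEq, Prod.mk.injEq] at h
      obtain ⟨rfl, h⟩ := h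
      exact h
  · rintro rfl
    exact Or.inr ⟨i, rfl⟩

lemma inr_mem {m : ℕ} {x : Fin (m + 1) → Bool} {y : Fin m → Bool} :
    (Sum.inr y : W m) ∈ wEdge x ↔ y = cls x := by
  rw [mem_wEdge]
  constructor
  · rintro (h | ⟨j, h⟩)
    · exact Sum.inr_injective h
    · exact absurd h (by simp)
  · rintro rfl
    exact Or.inl rfl

lemma cls_surj {m : ℕ} (y : Fin m → Bool) : ∃ x : Fin (m + 1) → Bool, cls x = y := by
  refine ⟨Fin.cons false y, ?_⟩
  funext j
  simp [cls]

lemma cls_eq {m : ℕ} {x y : Fin (m + 1) → Bool} (h : cls x = cls y) :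
    x = y ∨ ∀ i, x i = !(y i) := by
  have h1 : ∀ j : Fin m, xor (x 0) (x j.succ) = xor (y 0) (y j.succ) := fun j => congrFun h j
  by_cases h0 : x 0 = y 0
  · left
    funext i
    refine Fin.cases h0 (fun j => ?_) i
    have := h1 j
    rw [h0] at this
    exact Bool.xor_right_inj.1 this
  · right
    have h0' : x 0 = !(y 0) := by
      revert h0; cases x 0 <;> cases y 0 <;> simp
    intro i
    refine Fin.cases h0' (fun j => ?_) i
    have := h1 j
    rw [h0'] at this
    revert this; cases y 0 <;> cases x j.succ <;> cases y j.succ <;> simp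

lemma cls_compl {m : ℕ} (x : Fin (m + 1) → Bool) : cls (fun i => !(x i)) = cls x := by
  funext j
  change xor (!(x 0)) (!(x j.succ)) = xor (x 0) (x j.succ)
  cases x 0 <;> cases x j.succ <;> rfl

lemma w_partite (m : ℕ) : IsPartite (wSide m) (wE m) := by
  constructor
  · intro e he i
    unfold wE at he
    rw [mem_image] at he
    obtain ⟨x, _, rfl⟩ := he
    rw [card_eq_one]
    refine Fin.lastCases ?_ (fun i => ?_) i
    · refine ⟨Sum.inr (cls x), ?_⟩
      ext v
      rw [mem_inter, mem_sideSet, mem_singleton, mem_wEdge]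
      constructor
      · rintro ⟨h | ⟨i, h⟩, h'⟩
        · exact h
        · rw [h] at h'
          exact absurd h' (Fin.castSucc_ne_last _)
      · rintro rfl
        exact ⟨Or.inl rfl, rfl⟩
    · refine ⟨Sum.inl (i, x i), ?_⟩
      ext v
      rw [mem_inter, mem_sideSet, mem_singleton, mem_wEdge]
      constructor
      · rintro ⟨h | ⟨i', h⟩, h'⟩
        · rw [h] at h'
          exact absurd h'.symm (Fin.castSucc_ne_last _)
        · rw [h] at h' ⊢
          have : i' = i := Fin.castSucc_injective _ h'
          rw [this]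
      · rintro rfl
        exact ⟨Or.inr ⟨i, rfl⟩, rfl⟩
  · intro v
    rcases v with ⟨i, b⟩ | y
    · exact ⟨wEdge (fun _ => b), mem_image_of_mem _ (mem_univ _), inl_mem.2 rfl⟩
    · obtain ⟨x, hx⟩ := cls_surj y
      exact ⟨wEdge x, mem_image_of_mem _ (mem_univ _), inr_mem.2 hx.symm⟩

lemma w_intersecting (m : ℕ) : IsIntersecting (wE m) := by
  intro e he f hf
  unfold wE at he hf
  rw [mem_image] at he hf
  obtain ⟨x, _, rfl⟩ := he
  obtain ⟨y, _, rfl⟩ := hf
  by_cases h : ∃ i, x i = y i
  · obtain ⟨i, hi⟩ := h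
    exact ⟨Sum.inl (i, x i), mem_inter.2 ⟨inl_mem.2 rfl, inl_mem.2 hi⟩⟩
  · push Not at h
    have hx : x = fun i => !(y i) := by
      funext i
      have := h i
      revert this; cases x i <;> cases y i <;> simp
    exact ⟨Sum.inr (cls x), mem_inter.2 ⟨inr_mem.2 rfl, inr_mem.2 (by rw [hx, cls_compl])⟩⟩

lemma w_last_card (m : ℕ) : #(sideSet (wSide m) (Fin.last (m + 1))) = 2 ^ m := by
  have : sideSet (wSide m) (Fin.last (m + 1)) = univ.image (fun y => (Sum.inr y : W m)) := by
    ext v
    rw [mem_sideSet, mem_image]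
    constructor
    · intro h
      rcases v with ⟨i, b⟩ | y
      · exact absurd h (Fin.castSucc_ne_last _)
      · exact ⟨y, mem_univ _, rfl⟩
    · rintro ⟨y, _, rfl⟩
      rfl
  rw [this, card_image_of_injective _ Sum.inr_injective]
  simp

lemma w_sides (m : ℕ) (hm : 1 ≤ m) (i : Fin (m + 2)) : 2 ≤ #(sideSet (wSide m) i) := by
  refine Fin.lastCases ?_ (fun i => ?_) i
  · rw [w_last_card]
    calc 2 = 2 ^ 1 := rfl
      _ ≤ 2 ^ m := Nat.pow_le_pow_right (by norm_num) hm
  · have : ({Sum.inl (i, true), Sum.inl (i, false)} : Finset (W m)) ⊆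
        sideSet (wSide m) i.castSucc := by
      intro v hv
      rw [mem_insert, mem_singleton] at hv
      rw [mem_sideSet]
      rcases hv with rfl | rfl <;> rfl
    have h2 := card_le_card this
    rwa [card_pair (by simp)] at h2

/-- every non-trivial cover of the example has at least `m + 2 = r` vertices -/
lemma w_cover_large (m : ℕ) (S : Finset (W m)) (hS : IsNtCover (wSide m) (wE m) S) :
    m + 2 ≤ #S := by
  classical
  -- coordinates used
  have hone : ∀ i : Fin (m + 1), ¬ ((Sum.inl (i, true) : W m) ∈ S ∧ (Sum.inl (i, false) : W m) ∈ S) := by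
    intro i hi
    apply hS.2.2 i.castSucc
    intro v hv
    rw [mem_sideSet] at hv
    rcases v with ⟨j, b⟩ | y
    · have : j = i := Fin.castSucc_injective _ hv
      subst this
      cases b
      · exact hi.2
      · exact hi.1
    · exact absurd hv.symm (Fin.castSucc_ne_last _)
  set I : Finset (Fin (m + 1)) := univ.filter (fun i => ∃ b, (Sum.inl (i, b) : W m) ∈ S) with hI
  set T : Finset (Fin m → Bool) := univ.filter (fun y => (Sum.inr y : W m) ∈ S) with hT
  -- `q i` is the value avoiding `S` at `i`
  have hq : ∀ i : Fin (m + 1), ∃ b : Bool, (Sum.inl (i, b) : W m) ∉ S ∧ (i ∈ I → (Sum.inl (i, !b) : W m) ∈ S) := by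
    intro i
    by_cases h1 : (Sum.inl (i, true) : W m) ∈ S
    · refine ⟨false, fun h2 => hone i ⟨h1, h2⟩, fun _ => h1⟩
    · refine ⟨true, h1, fun h2 => ?_⟩
      rw [hI, mem_filter] at h2
      obtain ⟨_, b, hb⟩ := h2
      cases b
      · exact hb
      · exact absurd hb h1
  choose q hq1 hq2 using hq
  -- any vector agreeing with q on I has its class in T
  have hcl : ∀ x : Fin (m + 1) → Bool, (∀ i ∈ I, x i = q i) → cls x ∈ T := by
    intro x hx
    obtain ⟨v, hv⟩ := hS.1 (wEdge x) (mem_image_of_mem _ (mem_univ _))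
    rw [mem_inter, mem_wEdge] at hv
    rcases hv.2 with h | ⟨i, h⟩
    · rw [h] at hv
      rw [hT, mem_filter]
      exact ⟨mem_univ _, hv.1⟩
    · rw [h] at hv
      have hi : i ∈ I := by
        rw [hI, mem_filter]
        exact ⟨mem_univ _, x i, hv.1⟩
      rw [hx i hi] at hv
      exact absurd hv.1 (hq1 i)
  -- I is not everything
  have hIne : I ≠ univ := by
    intro h
    have h1 := hcl q (fun i _ => rfl)
    apply hS.2.1 (wEdge (fun i => !(q i))) (mem_image_of_mem _ (mem_univ _))
    intro v hv
    rw [mem_wEdge] at hv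
    rcases hv with rfl | ⟨i, rfl⟩
    · rw [cls_compl]
      rw [hT, mem_filter] at h1
      exact h1.2
    · exact hq2 i (by rw [h]; exact mem_univ _)
  -- I is not empty
  have hIe : I.Nonempty := by
    rw [nonempty_iff_ne_empty]
    intro h
    apply hS.2.2 (Fin.last (m + 1))
    intro v hv
    rw [mem_sideSet] at hv
    rcases v with ⟨j, b⟩ | y
    · exact absurd hv (Fin.castSucc_ne_last _)
    · obtain ⟨x, hx⟩ := cls_surj y
      have := hcl x (by rw [h]; simp)
      rw [hx, hT, mem_filter] at this
      exact this.2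
  -- card of S
  have hcard : #I + #T ≤ #S := by
    have h1 : #(I.image (fun i => (Sum.inl (i, !(q i)) : W m))) = #I :=
      card_image_of_injective _ (fun a b h => by
        simp only [Sum.inl.injEq, Prod.mk.injEq] at h; exact h.1)
    have h2 : #(T.image (fun y => (Sum.inr y : W m))) = #T :=
      card_image_of_injective _ Sum.inr_injective
    rw [← h1, ← h2, ← card_union_of_disjoint]
    · apply card_le_card
      intro v hv
      rw [mem_union, mem_image, mem_image] at hv
      rcases hv with ⟨i, hi, rfl⟩ | ⟨y, hy, rfl⟩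
      · exact hq2 i hi
      · rw [hT, mem_filter] at hy
        exact hy.2
    · rw [disjoint_left]
      intro v hv hv'
      rw [mem_image] at hv hv'
      obtain ⟨i, _, rfl⟩ := hv
      obtain ⟨y, _, h⟩ := hv'
      exact absurd h (by simp)
  -- T is large
  have hTc : #(univ \ I) + 1 ≤ #T := by
    -- vectors indexed by Option
    let X : Option {i // i ∉ I} → (Fin (m + 1) → Bool) := fun o i =>
      if h : i ∈ I then q i else decide (o = some ⟨i, h⟩)
    have hX : Function.Injective (fun o => cls (X o)) := by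
      intro o o' h
      simp only at h
      rcases cls_eq h with h | h
      · -- compare
        rcases o with _ | ⟨i, hi⟩ <;> rcases o' with _ | ⟨j, hj⟩
        · rfl
        · have := congrFun h j
          simp [X, hj] at this
        · have := congrFun h i
          simp [X, hi] at this
        · have := congrFun h i
          simp [X, hi] at this
          simp only [Option.some.injEq, Subtype.mk.injEq]
          exact this.symm
      · obtain ⟨i, hi⟩ := hIe
        have := h i
        simp [X, hi] at this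
    have h1 : Fintype.card (Option {i // i ∉ I}) = #(univ \ I) + 1 := by
      rw [Fintype.card_option, Fintype.card_subtype]
      congr 2
      ext i; simp
    rw [← h1, ← card_univ, ← card_image_of_injective _ hX]
    apply card_le_card
    intro y hy
    rw [mem_image] at hy
    obtain ⟨o, _, rfl⟩ := hy
    apply hcl
    intro i hi
    simp [X, hi]
  have h3 : #(univ \ I) + #I = m + 1 := by
    rw [card_sdiff_add_card_eq_card (subset_univ I)]
    simp
  omega

lemma w_has_cover (m : ℕ) (hm : 2 ≤ m) : ∃ S, IsNtCover (wSide m) (wE m) S := by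
  obtain ⟨S, hS, _⟩ := exists_small_cover (w_partite m) (w_intersecting m) (by omega)
    (w_sides m (by omega)) ⟨Fin.last (m + 1), by
      rw [w_last_card]
      have : 2 ^ 2 ≤ 2 ^ m := Nat.pow_le_pow_right (by norm_num) hm
      omega⟩
  exact ⟨S, hS⟩

/-- With all sides of size at least two, the least bound `g(r)` satisfies
`r ≤ g(r) ≤ 2r - 3` for all `r ≥ 4`: it grows linearly. -/
theorem result (r : ℕ) (hr : 4 ≤ r) : (r : ℕ∞) ≤ g r ∧ g r ≤ ((2 * r - 3 : ℕ) : ℕ∞) := by
  constructor
  · obtain ⟨m, rfl⟩ : ∃ m, r = m + 2 := ⟨r - 2, by omega⟩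
    have h1 : ((tauStar (wSide m) (wE m) : ℕ) : ℕ∞) ≤ g (m + 2) := by
      apply le_sSup
      exact ⟨_, inferInstance, inferInstance, wSide m, wE m, w_partite m, w_intersecting m,
        w_sides m (by omega), w_has_cover m (by omega), rfl⟩
    refine le_trans ?_ h1
    have h2 : m + 2 ≤ tauStar (wSide m) (wE m) := by
      unfold tauStar
      obtain ⟨S, hS⟩ := w_has_cover m (by omega)
      refine le_csInf (Set.nonempty_of_mem (x := #S) ⟨S, hS, rfl⟩) ?_
      rintro k ⟨S, hS, rfl⟩
      exact w_cover_large m S hS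
    exact_mod_cast h2
  · apply sSup_le
    rintro t ⟨V, _, _, side, E, h, hI, h2, hc, rfl⟩
    obtain ⟨S, hS, hSc⟩ := small_cover h hI (by omega) h2 hc
    have : tauStar side E ≤ #S := Nat.sInf_le ⟨S, hS, rfl⟩
    exact_mod_cast this.trans hSc

end Pool.Agent.Results.MP_2c613a_co.NondegenerateLinear
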