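import Pool.Agent.Q264.NtCover
set_option autoImplicit false
set_option linter.unusedSectionVars false
open Finset

/-! `f(r) = ∞` for all `r ≥ 3` (MP_2c613a_co). -/

namespace Pool.Agent.Results.MP_2c613a_co.SupremumInfinite

open Pool.Agent.Q264.NtCover

/-- `f(r)`: the supremum of `τ*(H)` over all intersecting `r`-partite hypergraphs `H` that have a
non-trivial vertex cover. -/
noncomputable def f (r : ℕ) : ℕ∞ :=
  sSup {t : ℕ∞ | ∃ (V : Type) (_ : Fintype V) (_ : DecidableEq V) (side : V → Fin r)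
    (E : Finset (Finset V)), IsPartite side E ∧ IsIntersecting E ∧ (∃ S, IsNtCover side E S) ∧
      t = (tauStar side E : ℕ∞)}

/-- the example: one side is a single vertex, the edges are otherwise disjoint -/
def exSide (s m : ℕ) : Option (Fin s × Fin m) → Fin (s + 1)
  | none => 0
  | some p => p.1.succ

/-- the `j`-th edge -/
def exEdge (s m : ℕ) (j : Fin m) : Finset (Option (Fin s × Fin m)) :=
  insert none (univ.image (fun i : Fin s => some (i, j)))

/-- the edge set -/
def exE (s m : ℕ) : Finset (Finset (Option (Fin s × Fin m))) := univ.image (exEdge s m)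

lemma mem_exEdge {s m : ℕ} {j : Fin m} {v : Option (Fin s × Fin m)} :
    v ∈ exEdge s m j ↔ v = none ∨ ∃ i, v = some (i, j) := by
  unfold exEdge
  rw [mem_insert, mem_image]
  constructor
  · rintro (h | ⟨i, _, h⟩)
    · exact Or.inl h
    · exact Or.inr ⟨i, h.symm⟩
  · rintro (h | ⟨i, h⟩)
    · exact Or.inl h
    · exact Or.inr ⟨i, mem_univ _, h.symm⟩

lemma ex_partite (s m : ℕ) (hm : 2 ≤ m) : IsPartite (exSide s m) (exE s m) := by
  constructor
  · intro e he i
    unfold exE at he
    rw [mem_image] at he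
    obtain ⟨j, _, rfl⟩ := he
    rw [card_eq_one]
    refine Fin.cases ?_ (fun i => ?_) i
    · refine ⟨none, ?_⟩
      ext v
      rw [mem_inter, mem_sideSet, mem_singleton, mem_exEdge]
      constructor
      · rintro ⟨h | ⟨i, h⟩, h'⟩
        · exact h
        · rw [h] at h'
          exact absurd h' (Fin.succ_ne_zero _)
      · rintro rfl
        exact ⟨Or.inl rfl, rfl⟩
    · refine ⟨some (i, j), ?_⟩
      ext v
      rw [mem_inter, mem_sideSet, mem_singleton, mem_exEdge]
      constructor
      · rintro ⟨h | ⟨i', h⟩, h'⟩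
        · rw [h] at h'
          exact absurd h'.symm (Fin.succ_ne_zero _)
        · rw [h] at h' ⊢
          have : i' = i := Fin.succ_injective _ h'
          rw [this]
      · rintro rfl
        exact ⟨Or.inr ⟨i, rfl⟩, rfl⟩
  · intro v
    rcases v with _ | ⟨i, j⟩
    · exact ⟨exEdge s m ⟨0, by omega⟩, mem_image_of_mem _ (mem_univ _), mem_exEdge.2 (Or.inl rfl)⟩
    · exact ⟨exEdge s m j, mem_image_of_mem _ (mem_univ _), mem_exEdge.2 (Or.inr ⟨i, rfl⟩)⟩

lemma ex_intersecting (s m : ℕ) : IsIntersecting (exE s m) := by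
  intro e he f hf
  unfold exE at he hf
  rw [mem_image] at he hf
  obtain ⟨j, _, rfl⟩ := he
  obtain ⟨l, _, rfl⟩ := hf
  exact ⟨none, mem_inter.2 ⟨mem_exEdge.2 (Or.inl rfl), mem_exEdge.2 (Or.inl rfl)⟩⟩

lemma ex_cover_large (s m : ℕ) (S : Finset (Option (Fin s × Fin m)))
    (hS : IsNtCover (exSide s m) (exE s m) S) : m ≤ #S := by
  have hnone : none ∉ S := by
    intro h
    apply hS.2.2 0
    intro v hv
    rw [mem_sideSet] at hv
    rcases v with _ | ⟨i, j⟩
    · exact h
    · exact absurd hv (Fin.succ_ne_zero _)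
  have h1 : ∀ j : Fin m, ∃ i : Fin s, some (i, j) ∈ S := by
    intro j
    obtain ⟨v, hv⟩ := hS.1 (exEdge s m j) (mem_image_of_mem _ (mem_univ _))
    rw [mem_inter, mem_exEdge] at hv
    rcases hv.2 with h | ⟨i, h⟩
    · rw [h] at hv; exact absurd hv.1 hnone
    · exact ⟨i, by rw [← h]; exact hv.1⟩
  choose g hg using h1
  have h2 : #(univ.image (fun j : Fin m => (some (g j, j) : Option (Fin s × Fin m)))) = m := by
    rw [card_image_of_injective]
    · simp
    · intro a b hab
      simp only [Option.some.injEq, Prod.mk.injEq] at hab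
      exact hab.2
  refine h2.symm.le.trans (card_le_card ?_)
  intro v hv
  rw [mem_image] at hv
  obtain ⟨j, _, rfl⟩ := hv
  exact hg j

lemma ex_has_cover (s m : ℕ) (hs : 2 ≤ s) (hm : 2 ≤ m) :
    ∃ S, IsNtCover (exSide s m) (exE s m) S := by
  classical
  set i0 : Fin s := ⟨0, by omega⟩
  set i1 : Fin s := ⟨1, by omega⟩
  set j0 : Fin m := ⟨0, by omega⟩
  set j1 : Fin m := ⟨1, by omega⟩
  have hi : i0 ≠ i1 := by intro h; simpa [i0, i1] using congrArg Fin.val h
  have hj : j0 ≠ j1 := by intro h; simpa [j0, j1] using congrArg Fin.val h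
  refine ⟨univ.filter (fun v => ∃ i j, v = some (i, j) ∧ ((i = i0 ∧ j ≠ j0) ∨ (i = i1 ∧ j = j0))),
    ?_, ?_, ?_⟩
  · intro e he
    unfold exE at he
    rw [mem_image] at he
    obtain ⟨j, _, rfl⟩ := he
    by_cases hjj : j = j0
    · exact ⟨some (i1, j), mem_inter.2 ⟨mem_filter.2 ⟨mem_univ _, i1, j, rfl, Or.inr ⟨rfl, hjj⟩⟩,
        mem_exEdge.2 (Or.inr ⟨_, rfl⟩)⟩⟩
    · exact ⟨some (i0, j), mem_inter.2 ⟨mem_filter.2 ⟨mem_univ _, i0, j, rfl, Or.inl ⟨rfl, hjj⟩⟩,
        mem_exEdge.2 (Or.inr ⟨_, rfl⟩)⟩⟩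
  · intro e he hsub
    unfold exE at he
    rw [mem_image] at he
    obtain ⟨j, _, rfl⟩ := he
    have := hsub (mem_exEdge.2 (Or.inl rfl) : (none : Option (Fin s × Fin m)) ∈ exEdge s m j)
    rw [mem_filter] at this
    obtain ⟨_, i, j, h, _⟩ := this
    exact absurd h (by simp)
  · intro i hsub
    revert hsub
    refine Fin.cases ?_ (fun i => ?_) i
    · intro hsub
      have := hsub (mem_sideSet.2 rfl : (none : Option (Fin s × Fin m)) ∈ sideSet (exSide s m) 0)
      rw [mem_filter] at this
      obtain ⟨_, i, j, h, _⟩ := this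
      exact absurd h (by simp)
    · intro hsub
      by_cases hii : i = i1
      · have := hsub (mem_sideSet.2 rfl : (some (i, j1) : Option (Fin s × Fin m)) ∈
          sideSet (exSide s m) i.succ)
        rw [mem_filter] at this
        obtain ⟨_, i', j', h, h'⟩ := this
        simp only [Option.some.injEq, Prod.mk.injEq] at h
        obtain ⟨rfl, rfl⟩ := h
        rcases h' with h' | h'
        · exact hi (h'.1.symm.trans hii)
        · exact hj h'.2.symm
      · have := hsub (mem_sideSet.2 rfl : (some (i, j0) : Option (Fin s × Fin m)) ∈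
          sideSet (exSide s m) i.succ)
        rw [mem_filter] at this
        obtain ⟨_, i', j', h, h'⟩ := this
        simp only [Option.some.injEq, Prod.mk.injEq] at h
        obtain ⟨rfl, rfl⟩ := h
        rcases h' with h' | h'
        · exact h'.2 rfl
        · exact hii h'.1

lemma tauStar_ge {V : Type} [Fintype V] [DecidableEq V] {r : ℕ} {side : V → Fin r}
    {E : Finset (Finset V)} {m : ℕ} (h : ∀ S, IsNtCover side E S → m ≤ #S)
    (hne : ∃ S, IsNtCover side E S) : m ≤ tauStar side E := by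
  unfold tauStar
  obtain ⟨S, hS⟩ := hne
  refine le_csInf (Set.nonempty_of_mem (x := #S) ⟨S, hS, rfl⟩) ?_
  rintro k ⟨S, hS, rfl⟩
  exact h S hS

lemma no_bipartite (V : Type) [Fintype V] [DecidableEq V] (side : V → Fin 2)
    (E : Finset (Finset V)) (h : IsPartite side E) (hI : IsIntersecting E) :
    ¬ ∃ S, IsNtCover side E S := by
  rintro ⟨S, hS⟩
  have h0 := hS.2.2 0
  have h1 := hS.2.2 1
  rw [not_subset] at h0 h1
  obtain ⟨u, hu, huS⟩ := h0
  obtain ⟨w, hw, hwS⟩ := h1
  rw [mem_sideSet] at hu hw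
  obtain ⟨e, he, hue⟩ := h.2 u
  obtain ⟨g, hg, hwg⟩ := h.2 w
  obtain ⟨x, hx⟩ := hI e he g hg
  rw [mem_inter] at hx
  have hcases : side x = 0 ∨ side x = 1 := by
    rcases side x with ⟨n, hn⟩
    interval_cases n
    · exact Or.inl rfl
    · exact Or.inr rfl
  have h01 : (0 : Fin 2) ≠ 1 := by decide
  rcases hcases with hx0 | hx1
  · -- x = u, so u ∈ g, and g has no vertex in S
    have hxu : x = u := vertex_unique h he hx.1 hue (by rw [hx0, hu])
    obtain ⟨y, hy⟩ := hS.1 g hg
    rw [mem_inter] at hy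
    have hy2 : side y = 0 ∨ side y = 1 := by
      rcases side y with ⟨n, hn⟩
      interval_cases n
      · exact Or.inl rfl
      · exact Or.inr rfl
    rcases hy2 with hy0 | hy1
    · have : y = x := vertex_unique h hg hy.2 hx.2 (by rw [hy0, hx0])
      rw [this, hxu] at hy
      exact huS hy.1
    · have : y = w := vertex_unique h hg hy.2 hwg (by rw [hy1, hw])
      rw [this] at hy
      exact hwS hy.1
  · have hxw : x = w := vertex_unique h hg hx.2 hwg (by rw [hx1, hw])
    obtain ⟨y, hy⟩ := hS.1 e he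
    rw [mem_inter] at hy
    have hy2 : side y = 0 ∨ side y = 1 := by
      rcases side y with ⟨n, hn⟩
      interval_cases n
      · exact Or.inl rfl
      · exact Or.inr rfl
    rcases hy2 with hy0 | hy1
    · have : y = u := vertex_unique h he hy.2 hue (by rw [hy0, hu])
      rw [this] at hy
      exact huS hy.1
    · have : y = x := vertex_unique h he hy.2 hx.1 (by rw [hy1, hx1])
      rw [this, hxw] at hy
      exact hwS hy.1

/-- `f(r) = ∞` for every `r ≥ 3`; for `r = 2` no intersecting `2`-partite hypergraph has a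
non-trivial vertex cover, so that the supremum `f(2)` is over the empty set. -/
theorem result : (∀ r : ℕ, 3 ≤ r → f r = ⊤) ∧
    ((∀ (V : Type) [Fintype V] [DecidableEq V] (side : V → Fin 2) (E : Finset (Finset V)),
      IsPartite side E → IsIntersecting E → ¬ ∃ S, IsNtCover side E S) ∧ f 2 = 0) := by
  refine ⟨fun r hr => ?_, fun V _ _ side E h hI => no_bipartite V side E h hI, ?_⟩
  · obtain ⟨s, rfl⟩ : ∃ s, r = s + 1 := ⟨r - 1, by omega⟩
    rw [ENat.eq_top_iff_forall_ge]
    intro m
    have h1 : ((tauStar (exSide s (m + 2)) (exE s (m + 2)) : ℕ) : ℕ∞) ≤ f (s + 1) := by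
      apply le_sSup
      exact ⟨_, inferInstance, inferInstance, exSide s (m + 2), exE s (m + 2),
        ex_partite s (m + 2) (by omega), ex_intersecting s (m + 2),
        ex_has_cover s (m + 2) (by omega) (by omega), rfl⟩
    refine le_trans ?_ h1
    have h2 := tauStar_ge (ex_cover_large s (m + 2)) (ex_has_cover s (m + 2) (by omega) (by omega))
    have : m ≤ tauStar (exSide s (m + 2)) (exE s (m + 2)) := by omega
    exact_mod_cast this
  · unfold f
    rw [← bot_eq_zero', sSup_eq_bot]
    rintro t ⟨V, _, _, side, E, h, hI, hc, _⟩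
    exact absurd hc (no_bipartite V side E h hI)

end Pool.Agent.Results.MP_2c613a_co.SupremumInfinite
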